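import Pool.Agent.HIK.Stmts

/-! HIK row HID: an admissible polynomial has a root in the ring of integers only for a set of
parameters of density zero. -/

set_option autoImplicit false

namespace Pool.Agent.HIK.H65

open Polynomial NumberField Pool.Agent.MTL Pool.Agent.HIK

theorem exR (e : ℕ) (he : 1 ≤ e) (X : ℕ) (hX : 1 ≤ X) :
    ∃ R : ℕ, X ≤ (R + 1) ^ e ∧ R ^ e < X := by
  classical
  have h0 : ∃ R : ℕ, X ≤ R ^ e := ⟨X, Nat.le_self_pow (by omega) X⟩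
  have h1 := Nat.find_spec h0
  have h2 : Nat.find h0 ≠ 0 := by
    intro h
    rw [h, Nat.zero_pow (by omega)] at h1
    omega
  obtain ⟨R, hR⟩ := Nat.exists_eq_succ_of_ne_zero h2
  refine ⟨R, ?_, ?_⟩
  · rw [hR] at h1
    exact h1
  · have h3 := Nat.find_min h0 (m := R) (by omega)
    omega

theorem hid (hC : CntStmt) (hA : AvgStmt) : HidStmt := by
  intro K _ _ g hg
  obtain ⟨e, C', R0, he, hR0⟩ := hC K g hg
  apply hA K
  intro ε hε
  obtain ⟨M, hM⟩ := exists_nat_gt ((C' : ℝ) * 2 ^ e / ε)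
  refine ⟨(R0 + M + 1) ^ e + 1, fun X hX a0 ha0 => ?_⟩
  have hX1 : 1 ≤ X := by omega
  obtain ⟨R, hR1, hR2⟩ := exR e he X hX1
  have hRM : R0 + M + 1 < R + 1 := by
    by_contra hcon
    have h3 := Nat.pow_le_pow_left (Nat.le_of_not_lt hcon) e
    omega
  have hRpos : 1 ≤ R := by omega
  have hh : house (a0 : K) ≤ 2 * ((R + 1 : ℕ) : ℝ) ^ e := by
    refine ha0.trans ?_
    have h4 : (X : ℝ) ≤ ((R + 1 : ℕ) : ℝ) ^ e := by exact_mod_cast hR1
    linarith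
  have h5 := hR0 (R + 1) (by omega) a0 hh
  have h6 : Nat.card {j : ℕ // j < X ∧ a0 + (j : 𝓞 K) ∈ {a : 𝓞 K | ∃ y : 𝓞 K, evalEval a y g = 0}} ≤
      Nat.card {n : ℕ // n < (R + 1) ^ e ∧ ∃ y : 𝓞 K, evalEval (a0 + n) y g = 0} := by
    have hfin : Finite {n : ℕ // n < (R + 1) ^ e ∧ ∃ y : 𝓞 K, evalEval (a0 + n) y g = 0} :=
      Set.Finite.to_subtype ((Set.finite_lt_nat ((R + 1) ^ e)).subset fun n hn => hn.1)
    refine Nat.card_le_card_of_injective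
      (fun j => ⟨j.1, lt_of_lt_of_le j.2.1 hR1, j.2.2⟩) ?_
    intro j j' hjj
    exact Subtype.ext (congrArg (fun z => z.1) hjj)
  have h7 : (Nat.card {j : ℕ // j < X ∧ a0 + (j : 𝓞 K) ∈
      {a : 𝓞 K | ∃ y : 𝓞 K, evalEval a y g = 0}} : ℝ) ≤ (C' : ℝ) * ((R + 1 : ℕ) : ℝ) ^ (e - 1) := by
    have h8 := h6.trans h5
    exact_mod_cast h8
  refine h7.trans ?_
  -- `R + 1 ≤ 2 R`, so `(R + 1)^(e - 1) ≤ 2^e R^(e-1) ≤ 2^e X / R`
  have hR : (0 : ℝ) < R := by exact_mod_cast hRpos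
  have h9 : ((R + 1 : ℕ) : ℝ) ^ (e - 1) ≤ 2 ^ (e - 1) * (R : ℝ) ^ (e - 1) := by
    rw [← mul_pow]
    apply pow_le_pow_left₀ (by positivity)
    have : (1 : ℝ) ≤ R := by exact_mod_cast hRpos
    push_cast
    linarith
  have h10 : (2 : ℝ) ^ (e - 1) ≤ 2 ^ e := pow_le_pow_right₀ (by norm_num) (by omega)
  have h11 : (R : ℝ) ^ (e - 1) * R ≤ X := by
    have h12 : (R : ℝ) ^ (e - 1) * R = (R : ℝ) ^ e := by
      rw [← pow_succ]
      congr 1
      omega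
    rw [h12]
    exact_mod_cast hR2.le
  have h13 : (C' : ℝ) * 2 ^ e ≤ ε * R := by
    have h14 : (M : ℝ) ≤ R := by
      have : M ≤ R := by omega
      exact_mod_cast this
    rw [div_lt_iff₀ hε] at hM
    nlinarith
  have h15 : (C' : ℝ) * ((R + 1 : ℕ) : ℝ) ^ (e - 1) ≤ (C' : ℝ) * (2 ^ e * (R : ℝ) ^ (e - 1)) := by
    apply mul_le_mul_of_nonneg_left _ (Nat.cast_nonneg _)
    exact h9.trans (mul_le_mul_of_nonneg_right h10 (by positivity))
  refine h15.trans ?_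
  calc (C' : ℝ) * (2 ^ e * (R : ℝ) ^ (e - 1)) = (C' * 2 ^ e) * (R : ℝ) ^ (e - 1) := by ring
    _ ≤ (ε * R) * (R : ℝ) ^ (e - 1) := mul_le_mul_of_nonneg_right h13 (by positivity)
    _ = ε * ((R : ℝ) ^ (e - 1) * R) := by ring
    _ ≤ ε * X := mul_le_mul_of_nonneg_left h11 hε.le

end Pool.Agent.HIK.H65
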